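import Pool.Agent.Q66.RX.Stm

set_option autoImplicit false

namespace Pool.Agent.Q139.RX

open Topology Filter Set MeasureTheory Pool.Agent.Q66.RX
open Pool.Agent.H1R3.BT (ft ft_cont cont_char norm_char dual_mul_apply dual_inv_apply)

section
variable {X : Type} [CommGroup X] [TopologicalSpace X] [IsTopologicalGroup X]
  [LocallyCompactSpace X] [T2Space X] [MeasurableSpace X] [BorelSpace X] (μ : Measure X)
  [μ.IsHaarMeasure] [μ.Regular]

omit [μ.IsHaarMeasure] [μ.Regular] in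
theorem integrable_mul_char {f : X → ℂ} (hf : Integrable f μ) (χ : PontryaginDual X) :
    Integrable (fun x => f x * ((χ x : Circle) : ℂ)) μ := by
  refine hf.mul_bdd (c := 1) (cont_char χ).aestronglyMeasurable ?_
  exact Eventually.of_forall fun x => (norm_char χ x).le

omit [μ.IsHaarMeasure] [μ.Regular] in
theorem ft_norm_sub_le {w g : X → ℂ} (hw : Integrable w μ) (hg : Integrable g μ)
    (χ : PontryaginDual X) : ‖ft μ w χ - ft μ g χ‖ ≤ ∫ x, ‖w x - g x‖ ∂μ := by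
  have h1 : ft μ w χ - ft μ g χ = ∫ x, (w x - g x) * ((χ x : Circle) : ℂ) ∂μ := by
    unfold ft
    rw [← integral_sub (integrable_mul_char μ hw χ) (integrable_mul_char μ hg χ)]
    congr 1
    funext x
    ring
  rw [h1]
  calc ‖∫ x, (w x - g x) * ((χ x : Circle) : ℂ) ∂μ‖
      ≤ ∫ x, ‖(w x - g x) * ((χ x : Circle) : ℂ)‖ ∂μ := norm_integral_le_integral_norm _
    _ = ∫ x, ‖w x - g x‖ ∂μ := by
        congr 1
        funext x
        rw [norm_mul, norm_char, mul_one]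

omit [μ.IsHaarMeasure] [μ.Regular] in
theorem ft_cont_approx {w : X → ℂ} (hw : Integrable w μ)
    (h : ∀ ε : ℝ, 0 < ε → ∃ g : X → ℂ, Integrable g μ ∧ Continuous (ft μ g) ∧
      ∫ x, ‖w x - g x‖ ∂μ < ε) : Continuous (ft μ w) := by
  apply continuous_of_uniform_approx_of_continuous
  intro U hU
  obtain ⟨ε, hε, hεU⟩ := Metric.mem_uniformity_dist.1 hU
  obtain ⟨g, hg, hgc, hge⟩ := h ε hε
  refine ⟨ft μ g, hgc, fun χ => hεU ?_⟩
  rw [dist_eq_norm]
  exact (ft_norm_sub_le μ hw hg χ).trans_lt hge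

omit [μ.Regular] in
theorem ft_cont_compact {K : Set X} (hK : IsCompact K) (c : ℂ) :
    Continuous (ft μ (K.indicator fun _ => c)) := by
  have hKi : Integrable (K.indicator fun _ : X => c) μ :=
    (integrable_indicator_iff hK.measurableSet).2 (integrableOn_const hK.measure_lt_top.ne)
  have hM : 0 < ‖c‖ * μ.real K + 1 := by positivity
  rw [continuous_iff_continuousAt]
  intro χ₀
  refine Metric.tendsto_nhds.2 fun ε hε => ?_
  have hδ : 0 < ε / (‖c‖ * μ.real K + 1) := by positivity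
  have hev : ∀ᶠ χ : PontryaginDual X in 𝓝 χ₀, ∀ x ∈ K,
      ‖((χ x : Circle) : ℂ) - ((χ₀ x : Circle) : ℂ)‖ < ε / (‖c‖ * μ.real K + 1) := by
    apply hK.eventually_forall_of_forall_eventually
      (P := fun (χ : PontryaginDual X) (x : X) =>
        ‖((χ x : Circle) : ℂ) - ((χ₀ x : Circle) : ℂ)‖ < ε / (‖c‖ * μ.real K + 1))
    intro y _
    have hc : Continuous fun z : PontryaginDual X × X =>
        ‖((z.1 z.2 : Circle) : ℂ) - ((χ₀ z.2 : Circle) : ℂ)‖ :=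
      (Pool.Agent.H1R3.BT.cont_eval.sub ((cont_char χ₀).comp continuous_snd)).norm
    have h0 : ‖((χ₀ y : Circle) : ℂ) - ((χ₀ y : Circle) : ℂ)‖ < ε / (‖c‖ * μ.real K + 1) := by
      rw [sub_self, norm_zero]
      exact hδ
    exact (isOpen_lt hc continuous_const).mem_nhds h0
  filter_upwards [hev] with χ hχ
  rw [dist_eq_norm]
  have h1 : ft μ (K.indicator fun _ => c) χ - ft μ (K.indicator fun _ => c) χ₀ =
      ∫ x in K, c * (((χ x : Circle) : ℂ) - ((χ₀ x : Circle) : ℂ)) ∂μ := by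
    unfold ft
    rw [← integral_sub (integrable_mul_char μ hKi χ) (integrable_mul_char μ hKi χ₀),
      ← integral_indicator hK.measurableSet]
    congr 1
    funext x
    by_cases hx : x ∈ K
    · simp only [indicator_of_mem hx]
      ring
    · simp only [indicator_of_notMem hx]
      ring
  rw [h1]
  have h2 : ‖∫ x in K, c * (((χ x : Circle) : ℂ) - ((χ₀ x : Circle) : ℂ)) ∂μ‖ ≤
      (‖c‖ * (ε / (‖c‖ * μ.real K + 1))) * μ.real K := by
    apply norm_setIntegral_le_of_norm_le_const hK.measure_lt_top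
    intro x hx
    rw [norm_mul]
    exact mul_le_mul_of_nonneg_left (hχ x hx).le (norm_nonneg _)
  refine h2.trans_lt ?_
  have h3 : (‖c‖ * (ε / (‖c‖ * μ.real K + 1))) * μ.real K =
      ε * ((‖c‖ * μ.real K) / (‖c‖ * μ.real K + 1)) := by ring
  rw [h3]
  have h4 : (‖c‖ * μ.real K) / (‖c‖ * μ.real K + 1) < 1 := by
    rw [div_lt_one hM]
    linarith
  nlinarith

theorem ft_cont_set {s : Set X} (hs : MeasurableSet s) (hμ : μ s < ⊤) (c : ℂ) :
    Continuous (ft μ (s.indicator fun _ => c)) := by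
  have hsi : Integrable (s.indicator fun _ : X => c) μ :=
    (integrable_indicator_iff hs).2 (integrableOn_const hμ.ne)
  apply ft_cont_approx μ hsi
  intro ε hε
  have hδ : 0 < ε / (‖c‖ + 1) := by positivity
  obtain ⟨K, hKs, hK, hKμ⟩ := hs.exists_isCompact_sdiff_lt hμ.ne
    (ε := ENNReal.ofReal (ε / (‖c‖ + 1))) (by simpa using hδ)
  have hKi : Integrable (K.indicator fun _ : X => c) μ :=
    (integrable_indicator_iff hK.measurableSet).2 (integrableOn_const hK.measure_lt_top.ne)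
  refine ⟨K.indicator fun _ => c, hKi, ft_cont_compact μ hK c, ?_⟩
  have h1 : ∀ x, ‖s.indicator (fun _ => c) x - K.indicator (fun _ => c) x‖ =
      (s \ K).indicator (fun _ => ‖c‖) x := by
    intro x
    by_cases hx : x ∈ K
    · have hxs := hKs hx
      simp [hx, hxs]
    · by_cases hxs : x ∈ s
      · simp [hx, hxs]
      · simp [hx, hxs]
  simp only [h1]
  rw [integral_indicator (hs.diff hK.measurableSet), setIntegral_const, smul_eq_mul]
  have h2 : μ.real (s \ K) < ε / (‖c‖ + 1) := by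
    rw [Measure.real]
    exact (ENNReal.lt_ofReal_iff_toReal_lt (hKμ.trans_le le_top).ne).1 hKμ
  have h3 : 0 ≤ μ.real (s \ K) := measureReal_nonneg
  have h4 : ε / (‖c‖ + 1) * (‖c‖ + 1) = ε := div_mul_cancel₀ _ (by positivity)
  have h5 : 0 ≤ ‖c‖ := norm_nonneg c
  nlinarith

theorem ft_continuous {w : X → ℂ} (hw : Integrable w μ) : Continuous (ft μ w) := by
  refine Integrable.induction (fun w : X → ℂ => Continuous (ft μ w)) ?_ ?_ ?_ ?_ hw
  · intro c s hs hμ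
    exact ft_cont_set μ hs hμ c
  · intro f g _ hf hg hfc hgc
    have : ft μ (f + g) = fun χ => ft μ f χ + ft μ g χ := by
      funext χ
      unfold ft
      rw [← integral_add (integrable_mul_char μ hf χ) (integrable_mul_char μ hg χ)]
      congr 1
      funext x
      rw [Pi.add_apply]
      ring
    rw [this]
    exact hfc.add hgc
  · apply isClosed_of_closure_subset
    intro f hf
    apply ft_cont_approx μ (L1.integrable_coeFn f)
    intro ε hε
    obtain ⟨g, hg, hge⟩ := Metric.mem_closure_iff.1 hf ε hε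
    refine ⟨g, L1.integrable_coeFn g, hg, ?_⟩
    rw [dist_eq_norm, L1.norm_eq_integral_norm] at hge
    refine lt_of_eq_of_lt (integral_congr_ae ?_) hge
    filter_upwards [Lp.coeFn_sub f g] with x hx
    rw [hx, Pi.sub_apply]
  · intro f g hfg _ hf
    have : ft μ g = ft μ f := by
      funext χ
      unfold ft
      apply integral_congr_ae
      filter_upwards [hfg] with x hx
      rw [hx]
    rw [this]
    exact hf

end

theorem t_PKY (hH : S_PKH) (hF : S_PKF) : S_PKY := by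
  intro X _ _ _ _ _ _ _ ν _ _ Ψ u hu hu0 hint
  let _ : MeasurableSpace X := borel X
  have : BorelSpace X := ⟨rfl⟩
  let μ : Measure X := Measure.haar
  have hreg : μ.Regular := inferInstance
  have hΨc : Continuous fun γ : PontryaginDual X => ((Ψ γ : Circle) : ℂ) :=
    continuous_subtype_val.comp (map_continuous Ψ)
  have hN : {χ : PontryaginDual X | 0 < rr (Ψ χ)} ∈ 𝓝 (1 : PontryaginDual X) := by
    apply IsOpen.mem_nhds
    · exact isOpen_lt continuous_const (Complex.continuous_re.comp hΨc)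
    · show 0 < rr (Ψ 1)
      rw [map_one]
      simp [rr]
  obtain ⟨w, hwi, hw0, hwpos, hwN⟩ := hH X μ _ hN
  have hwiC : Integrable (fun x => (w x : ℂ)) μ := hwi.ofReal
  let q : PontryaginDual X → ℂ := ft μ (fun x => (w x : ℂ))
  have hqc : Continuous q := ft_continuous μ hwiC
  have hq1 : q 1 ≠ 0 := by
    have h1 : q 1 = ((∫ x, w x ∂μ : ℝ) : ℂ) := by
      have h0 : ((∫ x, w x ∂μ : ℝ) : ℂ) = ∫ x, ((w x : ℝ) : ℂ) ∂μ := integral_ofReal.symm
      rw [h0]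
      show ∫ x, (w x : ℂ) * (((1 : PontryaginDual X) x : Circle) : ℂ) ∂μ = _
      congr 1
      funext x
      have : ((1 : PontryaginDual X) x : Circle) = 1 := rfl
      rw [this]
      simp
    rw [h1]
    exact_mod_cast hwpos.ne'
  have hqN : ∀ χ : PontryaginDual X, q χ ≠ 0 → 0 < rr (Ψ χ) := by
    intro χ h
    by_contra h2
    exact h (hwN χ h2)
  refine ⟨{χ | q χ ≠ 0}, (isOpen_ne_fun hqc continuous_const).mem_nhds hq1, fun γ₀ => ?_⟩
  -- bound for q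
  have hqb : ∀ χ, ‖q χ‖ ≤ ∫ x, ‖(w x : ℂ)‖ ∂μ := by
    intro χ
    calc ‖q χ‖ ≤ ∫ x, ‖(w x : ℂ) * ((χ x : Circle) : ℂ)‖ ∂μ := norm_integral_le_integral_norm _
      _ = ∫ x, ‖(w x : ℂ)‖ ∂μ := by
        congr 1
        funext x
        rw [norm_mul, norm_char, mul_one]
  let w₁ : X → ℂ := fun y => (w y : ℂ) * (((γ₀⁻¹ : PontryaginDual X) y : Circle) : ℂ)
  have hw₁ : Integrable w₁ μ := integrable_mul_char μ hwiC γ₀⁻¹
  have hw₁q : ∀ γ : PontryaginDual X, ∫ y, w₁ y * ((γ y : Circle) : ℂ) ∂μ = q (γ * γ₀⁻¹) := by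
    intro γ
    show _ = ∫ y, (w y : ℂ) * (((γ * γ₀⁻¹ : PontryaginDual X) y : Circle) : ℂ) ∂μ
    congr 1
    funext y
    rw [dual_mul_apply]
    show (w y : ℂ) * (((γ₀⁻¹ : PontryaginDual X) y : Circle) : ℂ) * ((γ y : Circle) : ℂ) = _
    ring
  let f : PontryaginDual X → ℂ := fun γ => (u γ : ℂ) * ((Ψ γ : Circle) : ℂ)
  have hf : Integrable f ν := by
    refine (hu.ofReal (𝕜 := ℂ)).mul_bdd (c := 1) hΨc.aestronglyMeasurable ?_
    exact Eventually.of_forall fun x => (Circle.norm_coe _).le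
  have hqc' : Continuous fun γ : PontryaginDual X => q (γ * γ₀⁻¹) :=
    hqc.comp (continuous_id.mul continuous_const)
  let f₁ : PontryaginDual X → ℂ := fun γ => f γ * q (γ * γ₀⁻¹)
  have hf₁ : Integrable f₁ ν := by
    refine hf.mul_bdd (c := ∫ x, ‖(w x : ℂ)‖ ∂μ) hqc'.aestronglyMeasurable ?_
    exact Eventually.of_forall fun x => hqb _
  have h1 : ∀ x : X, ∫ γ, f₁ γ * ((γ x : Circle) : ℂ) ∂ν = 0 := by
    intro x
    have h2 := (hF X μ ν f w₁ hf hw₁ hint x).1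
    simp only [hw₁q] at h2
    exact h2
  have h2 : ∫ γ, f₁ γ * (starRingEnd ℂ) (q (γ * γ₀⁻¹)) ∂ν = 0 := by
    have h3 := (hF X μ ν f₁ w₁ hf₁ hw₁ h1 1).2
    simp only [hw₁q] at h3
    rw [← h3]
    congr 1
    funext γ
    have : ((γ 1 : Circle) : ℂ) = 1 := by rw [map_one]; rfl
    rw [this, mul_one]
  have h3 : ∀ γ : PontryaginDual X, (((Ψ γ₀⁻¹ : Circle) : ℂ)) *
      (f₁ γ * (starRingEnd ℂ) (q (γ * γ₀⁻¹))) =
      ((u γ * ‖q (γ * γ₀⁻¹)‖ ^ 2 : ℝ) : ℂ) * ((Ψ (γ * γ₀⁻¹) : Circle) : ℂ) := by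
    intro γ
    have h4 : ((Ψ (γ * γ₀⁻¹) : Circle) : ℂ) = ((Ψ γ : Circle) : ℂ) * ((Ψ γ₀⁻¹ : Circle) : ℂ) := by
      rw [map_mul]; rfl
    have h5 : q (γ * γ₀⁻¹) * (starRingEnd ℂ) (q (γ * γ₀⁻¹)) =
        ((‖q (γ * γ₀⁻¹)‖ ^ 2 : ℝ) : ℂ) := by
      rw [Complex.mul_conj, Complex.normSq_eq_norm_sq]
    rw [h4]
    show (((Ψ γ₀⁻¹ : Circle) : ℂ)) * ((u γ : ℂ) * ((Ψ γ : Circle) : ℂ) * q (γ * γ₀⁻¹) *
      (starRingEnd ℂ) (q (γ * γ₀⁻¹))) = _
    push_cast at h5 ⊢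
    rw [← h5]
    ring
  have h4 : ∫ γ, ((u γ * ‖q (γ * γ₀⁻¹)‖ ^ 2 : ℝ) : ℂ) * ((Ψ (γ * γ₀⁻¹) : Circle) : ℂ) ∂ν = 0 := by
    have h5 : ∫ γ, (((Ψ γ₀⁻¹ : Circle) : ℂ)) *
      (f₁ γ * (starRingEnd ℂ) (q (γ * γ₀⁻¹))) ∂ν = 0 := by
      rw [integral_const_mul, h2, mul_zero]
    simp only [h3] at h5
    exact h5
  have hg : Integrable (fun γ => ((u γ * ‖q (γ * γ₀⁻¹)‖ ^ 2 : ℝ) : ℂ) *
      ((Ψ (γ * γ₀⁻¹) : Circle) : ℂ)) ν := by
    have h6 : Integrable (fun γ => (((Ψ γ₀⁻¹ : Circle) : ℂ)) *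
      (f₁ γ * (starRingEnd ℂ) (q (γ * γ₀⁻¹)))) ν := by
      refine Integrable.const_mul ?_ _
      refine hf₁.mul_bdd (c := ∫ x, ‖(w x : ℂ)‖ ∂μ)
        (Complex.continuous_conj.comp hqc').aestronglyMeasurable ?_
      refine Eventually.of_forall fun x => ?_
      show ‖(starRingEnd ℂ) (q (x * γ₀⁻¹))‖ ≤ _
      rw [RCLike.norm_conj]
      exact hqb _
    simpa only [h3] using h6
  let g : PontryaginDual X → ℝ := fun γ => u γ * ‖q (γ * γ₀⁻¹)‖ ^ 2 * rr (Ψ (γ * γ₀⁻¹))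
  have hgre : ∀ γ, (((u γ * ‖q (γ * γ₀⁻¹)‖ ^ 2 : ℝ) : ℂ) * ((Ψ (γ * γ₀⁻¹) : Circle) : ℂ)).re = g γ := by
    intro γ
    rw [Complex.re_ofReal_mul]
    rfl
  have hgi : Integrable g ν := by
    have := hg.re
    refine this.congr (Eventually.of_forall fun γ => ?_)
    exact hgre γ
  have hgint : ∫ γ, g γ ∂ν = 0 := by
    have h7 : ∫ γ, (((u γ * ‖q (γ * γ₀⁻¹)‖ ^ 2 : ℝ) : ℂ) * ((Ψ (γ * γ₀⁻¹) : Circle) : ℂ)).re ∂ν =
        (∫ γ, ((u γ * ‖q (γ * γ₀⁻¹)‖ ^ 2 : ℝ) : ℂ) * ((Ψ (γ * γ₀⁻¹) : Circle) : ℂ) ∂ν).re :=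
      integral_re hg
    simp only [hgre] at h7
    rw [h7, h4, Complex.zero_re]
  have hgnn : ∀ γ, 0 ≤ g γ := by
    intro γ
    by_cases h : q (γ * γ₀⁻¹) = 0
    · show 0 ≤ u γ * ‖q (γ * γ₀⁻¹)‖ ^ 2 * rr (Ψ (γ * γ₀⁻¹))
      rw [h]
      simp
    · exact mul_nonneg (mul_nonneg (hu0 γ) (sq_nonneg _)) (hqN _ h).le
  have hae := (integral_eq_zero_iff_of_nonneg hgnn hgi).1 hgint
  filter_upwards [hae] with γ hγ hγO
  have h8 : u γ * ‖q (γ * γ₀⁻¹)‖ ^ 2 * rr (Ψ (γ * γ₀⁻¹)) = 0 := hγ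
  have h9 : q (γ * γ₀⁻¹) ≠ 0 := hγO
  have h10 := (hqN _ h9).ne'
  have h11 : ‖q (γ * γ₀⁻¹)‖ ^ 2 ≠ 0 := pow_ne_zero _ (norm_ne_zero_iff.2 h9)
  rcases mul_eq_zero.1 h8 with h | h
  · rcases mul_eq_zero.1 h with h | h
    · exact h
    · exact absurd h h11
  · exact absurd h h10

end Pool.Agent.Q139.RX
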